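import Pool.Agent.T6.H1.Ar.Main
import Pool.Agent.T6.H1.Sm.Fin

/-! # The mean of the local densities over all primes -/

set_option autoImplicit false

namespace Pool.Agent.T6.H1.Ar

open Finset Filter Topology
open Pool.Agent.R459.Eq (mean Per co pi_lower' small_ev)
open Pool.Agent.R318.PR (GP mem_GP GP_sum)
open Pool.Agent.T6.H1.Sm (fB fB_mem Base)

/-- the mean over all primes -/
theorem mean_all (B : ℤ) (r : ℕ) (δ : ℝ) (h : Base B r δ) :
    Tendsto (fun x : ℕ => (∑ p ∈ (range (x + 1)).filter Nat.Prime, mean p (fB B r p)) / (Nat.primeCounting x : ℝ))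
      atTop (𝓝 δ) := by
  obtain ⟨M, hF⟩ := h.fam
  rw [Metric.tendsto_atTop]
  intro ε hε
  obtain ⟨X1, hX1⟩ := hF.avg (ε / 4) (by positivity)
  obtain ⟨X2, hX24, hX2⟩ := small_ev (2 * (M.primeFactors.card : ℝ)) (ε / 4) (by positivity)
  refine ⟨max X1 X2, fun x hx => ?_⟩
  have hx1 := (le_max_left _ _).trans hx
  have hx2 := (le_max_right _ _).trans hx
  have hx4 : 4 ≤ x := by omega
  have hpos := (pi_lower' x hx4).1
  have hm : ∀ p : ℕ, 0 ≤ mean p (fB B r p) ∧ mean p (fB B r p) ≤ 1 := by
    intro p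
    unfold mean
    constructor
    · exact div_nonneg (sum_nonneg fun t _ => (fB_mem _ _ _ _).1) (Nat.cast_nonneg _)
    · rcases Nat.eq_zero_or_pos p with h0 | h0
      · subst h0; simp
      · have hp0 : (0 : ℝ) < p := by exact_mod_cast h0
        rw [div_le_one hp0]
        refine (sum_le_card_nsmul _ _ 1 fun t _ => (fB_mem _ _ _ _).2).trans ?_
        rw [card_range, nsmul_eq_mul, mul_one]
  have h6 := GP_sum M hF.hM x ((range (x + 1)).filter Nat.Prime) (fun p => mean p (fB B r p)) (fun p => (hm p).1)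
    (fun p => (hm p).2.trans (by norm_num))
    (by
      intro p hp
      rw [mem_GP] at hp
      rw [mem_filter, mem_range]
      exact ⟨by omega, hp.2.1⟩)
    (by
      intro p hp
      rw [mem_filter, mem_range] at hp
      exact ⟨by omega, hp.2⟩)
  have h7 := hX2 x hx2
  have h8 : 0 ≤ Real.log x := Real.log_nonneg (by exact_mod_cast (by omega : 1 ≤ x))
  have h9 := hX1 x hx1
  have h10 := abs_sub_le (∑ p ∈ (range (x + 1)).filter Nat.Prime, mean p (fB B r p)) (∑ p ∈ GP M x, mean p (fB B r p))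
    (δ * Nat.primeCounting x)
  rw [abs_sub_comm] at h6
  rw [Real.dist_eq]
  have e : (∑ p ∈ (range (x + 1)).filter Nat.Prime, mean p (fB B r p)) / (Nat.primeCounting x : ℝ) - δ =
      (∑ p ∈ (range (x + 1)).filter Nat.Prime, mean p (fB B r p) - δ * Nat.primeCounting x) / Nat.primeCounting x := by
    field_simp
  rw [e, abs_div, abs_of_pos hpos, div_lt_iff₀ hpos]
  have h11 : 0 < ε / 4 * (Nat.primeCounting x : ℝ) := by positivity
  linarith

end Pool.Agent.T6.H1.Ar
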