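import Pool.Agent.T6.H1.Pm.One

/-! # Arbitrary sets of primes, arbitrary sets of bases: the estimate -/

set_option autoImplicit false

namespace Pool.Agent.T6.H1.Ar

open Finset Filter
open Pool.Agent.R459.Eq (mean Per co pi_lower' small_ev)
open Pool.Agent.T6.H1.Sm (Rep count_div fB fB_mem fB_per rep_fB co_rep second)
open Pool.Agent.T6.H1.Pm (Gc mu mu_mem mu_mean sum_inv sh fc_sh secondm)

/-- the elementary inequality -/
lemma elem2 (η x L a b Q : ℝ) (hη : 0 < η) (hx : 1 ≤ x) (hL : 0 < L) (ha : 0 < a) (hb : 0 < b) (hQ : 0 < Q)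
    (hab : x ^ (2 + η) ≤ a * b) (hLa : x ^ (2 + η) * L ^ 2 ≤ a * Q ^ 2) (hLb : x ^ (2 + η) * L ^ 2 ≤ b * Q ^ 2)
    (hLQ : x ^ (1 / 2 + η) * L ≤ Q) :
    Real.sqrt ((a * Q ^ 2 + a ^ 2 * (2 * L) ^ 2) * (b * Q ^ 2 + b ^ 2 * (2 * L) ^ 2)) ≤
      5 * (x ^ (-1 - η / 2)) * (a * b * Q ^ 2) := by
  have hx0 : 0 < x := by linarith
  obtain ⟨lam, hlam⟩ : ∃ lam, lam = (2 * L) ^ 2 / Q ^ 2 := ⟨_, rfl⟩
  have hlam0 : 0 < lam := by rw [hlam]; positivity
  have e1 : (a * Q ^ 2 + a ^ 2 * (2 * L) ^ 2) * (b * Q ^ 2 + b ^ 2 * (2 * L) ^ 2) =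
      (a * b * Q ^ 2) ^ 2 * ((1 / a + lam) * (1 / b + lam)) := by
    rw [hlam]
    field_simp
  rw [e1, Real.sqrt_mul (by positivity), Real.sqrt_sq (by positivity), mul_comm]
  apply mul_le_mul_of_nonneg_right _ (by positivity)
  rw [Real.sqrt_le_left (by positivity)]
  have hX : 0 < x ^ (2 + η) := by positivity
  have hneg : x ^ (-2 - η) = 1 / x ^ (2 + η) := by
    rw [show (-2 - η : ℝ) = -(2 + η) by ring, Real.rpow_neg hx0.le, one_div]
  have t1 : 1 / a * (1 / b) ≤ x ^ (-2 - η) := by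
    have h1 : 1 / a * (1 / b) = 1 / (a * b) := by field_simp
    rw [h1, hneg]
    exact one_div_le_one_div_of_le (by positivity) hab
  have key : ∀ c : ℝ, 0 < c → x ^ (2 + η) * L ^ 2 ≤ c * Q ^ 2 → lam * (1 / c) ≤ 4 * x ^ (-2 - η) := by
    intro c hc h
    have h1 : lam * (1 / c) = 4 * (L ^ 2 / (c * Q ^ 2)) := by rw [hlam]; field_simp; ring
    rw [h1, hneg]
    apply mul_le_mul_of_nonneg_left _ (by norm_num)
    rw [div_le_div_iff₀ (by positivity) hX, one_mul]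
    linarith
  have t2 := key a ha hLa
  have t3 := key b hb hLb
  have t4 : lam * lam ≤ 16 * x ^ (-2 - η) := by
    have h1 : L / Q ≤ x ^ (-(1 / 2 + η)) := by
      rw [Real.rpow_neg hx0.le, div_le_iff₀ hQ, inv_mul_eq_div, le_div_iff₀ (by positivity)]
      linarith
    have h2 : lam * lam = 16 * (L / Q) ^ 4 := by
      rw [hlam]
      field_simp
      ring
    have h3 : (L / Q) ^ 4 ≤ (x ^ (-(1 / 2 + η))) ^ 4 := pow_le_pow_left₀ (by positivity) h1 4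
    have h4 : (x ^ (-(1 / 2 + η))) ^ 4 = x ^ (-2 - 4 * η) := by
      rw [← Real.rpow_natCast, ← Real.rpow_mul hx0.le]
      congr 1
      push_cast
      ring
    have h5 : x ^ (-2 - 4 * η) ≤ x ^ (-2 - η) := Real.rpow_le_rpow_of_exponent_le hx (by linarith)
    rw [h2]
    linarith
  have e2 : (5 * x ^ (-1 - η / 2)) ^ 2 = 25 * x ^ (-2 - η) := by
    rw [mul_pow, ← Real.rpow_natCast (x ^ (-1 - η / 2)), ← Real.rpow_mul hx0.le]
    norm_num
    congr 1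
    ring
  rw [e2]
  have e3 : (1 / a + lam) * (1 / b + lam) = 1 / a * (1 / b) + lam * (1 / a) + lam * (1 / b) + lam * lam := by ring
  rw [e3]
  linarith

/-- the number of the primes of a set for which the condition holds, as a sum -/
lemma Lsum (η : ℝ) (hη : 0 < η) : ∃ X : ℕ, 4 ≤ X ∧ ∀ (x : ℕ) (L Q : ℝ), X ≤ x → 1 / 2 ≤ L →
    (x : ℝ) ^ (1 / 2 + η) * L ≤ Q → 2 * (1 + Real.log x) + 6 * L ≤ (x : ℝ) ^ (-(η / 8)) * Q / 2 := by
  have h1 := (isLittleO_log_rpow_atTop (show (0 : ℝ) < 1 / 4 by norm_num)).bound (show (0 : ℝ) < 1 by norm_num)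
  have h2 : ∀ᶠ x : ℝ in atTop, (20 : ℝ) ≤ x ^ (1 / 4 : ℝ) :=
    (tendsto_rpow_atTop (by norm_num)).eventually_ge_atTop _
  have h3 : ∀ᶠ x : ℝ in atTop, Real.log x ≤ x ^ (1 / 4 : ℝ) ∧ (20 : ℝ) ≤ x ^ (1 / 4 : ℝ) := by
    filter_upwards [h1, h2, eventually_ge_atTop (1 : ℝ)] with x hx hx' hx1
    rw [Real.norm_of_nonneg (Real.log_nonneg hx1), Real.norm_of_nonneg (by positivity), one_mul] at hx
    exact ⟨hx, hx'⟩
  obtain ⟨X, hX⟩ := eventually_atTop.1 ((tendsto_natCast_atTop_atTop (R := ℝ)).eventually h3)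
  refine ⟨max X 4, le_max_right _ _, fun x L Q hx hL hQ => ?_⟩
  obtain ⟨hl, he⟩ := hX x ((le_max_left _ _).trans hx)
  have hx4 : 4 ≤ x := (le_max_right _ _).trans hx
  have hx4' : (4 : ℝ) ≤ x := by exact_mod_cast hx4
  have hx0 : (0 : ℝ) < x := by linarith
  have hx1 : (1 : ℝ) ≤ x := by linarith
  obtain ⟨y, hy⟩ : ∃ y, y = (x : ℝ) ^ (1 / 4 : ℝ) := ⟨_, rfl⟩
  rw [← hy] at hl he
  have h4 : y * y ≤ (x : ℝ) ^ (-(η / 8)) * (x : ℝ) ^ (1 / 2 + η) := by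
    rw [hy, ← Real.rpow_add hx0, ← Real.rpow_add hx0]
    apply Real.rpow_le_rpow_of_exponent_le hx1
    linarith
  have h5 : (x : ℝ) ^ (-(η / 8)) * ((x : ℝ) ^ (1 / 2 + η) * L) ≤ (x : ℝ) ^ (-(η / 8)) * Q :=
    mul_le_mul_of_nonneg_left hQ (by positivity)
  have h6 : y * y * L ≤ (x : ℝ) ^ (-(η / 8)) * Q := by
    refine le_trans ?_ h5
    rw [← mul_assoc]
    exact mul_le_mul_of_nonneg_right h4 (by linarith)
  have h7 : y * (1 / 2) ≤ y * L := mul_le_mul_of_nonneg_left hL (by linarith)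
  have h8 : 20 * (y * L) ≤ y * (y * L) := mul_le_mul_of_nonneg_right he (by positivity)
  have h9 : 20 * L ≤ y * L := mul_le_mul_of_nonneg_right he (by linarith)
  nlinarith

open Classical in
/-- **the core estimate**, for a general function `F` whose second moment is bounded -/
lemma cheb {ι : Type} (Ω : Finset ι) (F : ι → ℝ) (η x a b Q T C1 : ℝ) (hη : 0 < η) (hx : 1 ≤ x)
    (hQ : x ^ (1 / 2 + η) / 2 ≤ Q) (hT : T ^ 2 ≤ C1 * x ^ (η / 16)) (ha : 0 < a) (hb : 0 < b) (hC1 : 0 ≤ C1)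
    (S : ℝ) (hS : S ≤ 5 * (x ^ (-1 - η / 2)) * (a * b * Q ^ 2))
    (hsec : ∑ z ∈ Ω, F z ^ 2 ≤ Q * (a * b) + T ^ 2 * x * S)
    (hbig : 4 * (2 + 5 * C1) ≤ x ^ (η / 16)) :
    ((Ω.filter (fun z => x ^ (-(η / 8)) * Q / 2 < |F z|)).card : ℝ) ≤ x ^ (-(η / 8)) * (a * b) := by
  have hx0 : 0 < x := by linarith
  have hQ0 : 0 < Q := lt_of_lt_of_le (by positivity) hQ
  obtain ⟨E, hE⟩ : ∃ E, E = Ω.filter (fun z => x ^ (-(η / 8)) * Q / 2 < |F z|) := ⟨_, rfl⟩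
  rw [← hE]
  have h1 : (E.card : ℝ) * (x ^ (-(η / 8)) * Q / 2) ^ 2 ≤ Q * (a * b) + T ^ 2 * x * S := by
    refine le_trans ?_ hsec
    rw [← nsmul_eq_mul]
    refine (card_nsmul_le_sum E (fun z => F z ^ 2) _ ?_).trans ?_
    · intro z hz
      rw [hE, mem_filter] at hz
      rw [← sq_abs (F z)]
      exact pow_le_pow_left₀ (by positivity) hz.2.le 2
    · apply sum_le_sum_of_subset_of_nonneg
      · rw [hE]; exact filter_subset _ _
      · intro z _ _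
        exact sq_nonneg _
  have h2 : Q * (a * b) ≤ 2 * x ^ (-(η * (7 / 16))) * (a * b * Q ^ 2) := by
    have h3 : 1 ≤ 2 * x ^ (-(η * (7 / 16))) * Q := by
      have h4 : 1 ≤ x ^ (-(η * (7 / 16))) * x ^ (1 / 2 + η) := by
        rw [← Real.rpow_add hx0]
        exact Real.one_le_rpow hx (by linarith)
      have h5 : x ^ (-(η * (7 / 16))) * (x ^ (1 / 2 + η) / 2) ≤ x ^ (-(η * (7 / 16))) * Q :=
        mul_le_mul_of_nonneg_left hQ (by positivity)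
      linarith
    have h6 : 0 ≤ Q * (a * b) := by positivity
    calc Q * (a * b) = 1 * (Q * (a * b)) := by ring
      _ ≤ (2 * x ^ (-(η * (7 / 16))) * Q) * (Q * (a * b)) := mul_le_mul_of_nonneg_right h3 h6
      _ = _ := by ring
  have h3 : T ^ 2 * x * S ≤ 5 * C1 * x ^ (-(η * (7 / 16))) * (a * b * Q ^ 2) := by
    have h4 : T ^ 2 * x * S ≤ T ^ 2 * x * (5 * (x ^ (-1 - η / 2)) * (a * b * Q ^ 2)) :=
      mul_le_mul_of_nonneg_left hS (by positivity)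
    refine h4.trans ?_
    have h5 : T ^ 2 * x * (5 * (x ^ (-1 - η / 2)) * (a * b * Q ^ 2)) ≤
        (C1 * x ^ (η / 16)) * x * (5 * (x ^ (-1 - η / 2)) * (a * b * Q ^ 2)) := by
      gcongr
    refine h5.trans (le_of_eq ?_)
    have h6 : x ^ (η / 16) * x * x ^ (-1 - η / 2) = x ^ (-(η * (7 / 16))) := by
      calc x ^ (η / 16) * x * x ^ (-1 - η / 2) = x ^ (η / 16) * x ^ (1 : ℝ) * x ^ (-1 - η / 2) := by rw [Real.rpow_one]
        _ = x ^ (-(η * (7 / 16))) := by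
            rw [← Real.rpow_add hx0, ← Real.rpow_add hx0]
            congr 1
            ring
    calc (C1 * x ^ (η / 16)) * x * (5 * (x ^ (-1 - η / 2)) * (a * b * Q ^ 2)) =
          5 * C1 * (x ^ (η / 16) * x * x ^ (-1 - η / 2)) * (a * b * Q ^ 2) := by ring
      _ = _ := by rw [h6]
  have h4 : (E.card : ℝ) * (x ^ (-(η / 8)) * Q / 2) ^ 2 ≤
      (2 + 5 * C1) * x ^ (-(η * (7 / 16))) * (a * b * Q ^ 2) := by linarith
  have h5 : (x ^ (-(η / 8)) * Q / 2) ^ 2 = x ^ (-(η / 4)) * Q ^ 2 / 4 := by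
    have e : (x ^ (-(η / 8))) ^ 2 = x ^ (-(η / 4)) := by
      rw [← Real.rpow_natCast, ← Real.rpow_mul hx0.le]
      congr 1
      push_cast
      ring
    rw [div_pow, mul_pow, e]
    norm_num
  rw [h5] at h4
  have h6 : (E.card : ℝ) ≤ 4 * (2 + 5 * C1) * x ^ (-(η * (3 / 16))) * (a * b) := by
    have h7 : 0 < x ^ (-(η / 4)) * Q ^ 2 / 4 := by positivity
    rw [← le_div_iff₀ h7] at h4
    refine h4.trans (le_of_eq ?_)
    have h8 : x ^ (-(η * (7 / 16))) = x ^ (-(η * (3 / 16))) * x ^ (-(η / 4)) := by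
      rw [← Real.rpow_add hx0]
      congr 1
      ring
    rw [h8]
    have h9 : x ^ (-(η / 4)) ≠ 0 := by positivity
    field_simp
  refine h6.trans ?_
  have h7 : 4 * (2 + 5 * C1) * x ^ (-(η * (3 / 16))) ≤ x ^ (-(η / 8)) := by
    calc 4 * (2 + 5 * C1) * x ^ (-(η * (3 / 16))) ≤ x ^ (η / 16) * x ^ (-(η * (3 / 16))) :=
          mul_le_mul_of_nonneg_right hbig (by positivity)
      _ = x ^ (-(η / 8)) := by
          rw [← Real.rpow_add hx0]
          congr 1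
          ring
  exact mul_le_mul_of_nonneg_right h7 (by positivity)

/-- the common preparation -/
lemma prep (η : ℝ) (hη : 0 < η) : ∃ (C1 : ℝ) (X : ℕ), 0 ≤ C1 ∧ 4 ≤ X ∧ ∀ x : ℕ, X ≤ x →
    4 * (2 + 5 * C1) ≤ (x : ℝ) ^ (η / 16) ∧
    ∀ p : ℕ, p.Prime → p ≤ x → (2 * (((p - 1).divisors.card : ℝ) + 1)) ^ 2 ≤ C1 * (x : ℝ) ^ (η / 16) := by
  obtain ⟨C0, hC0, hdiv⟩ := Pool.Agent.H369R2.divisor_bound (η / 32) (by positivity)
  have h2 : ∀ᶠ x : ℝ in atTop, 4 * (2 + 5 * (2 * C0 + 2) ^ 2) ≤ x ^ (η / 16) :=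
    (tendsto_rpow_atTop (by positivity)).eventually_ge_atTop _
  obtain ⟨X, hX⟩ := eventually_atTop.1 ((tendsto_natCast_atTop_atTop (R := ℝ)).eventually h2)
  refine ⟨(2 * C0 + 2) ^ 2, max X 4, by positivity, le_max_right _ _, fun x hx => ⟨hX x ((le_max_left _ _).trans hx), ?_⟩⟩
  intro p hp hpx
  have hx4 : 4 ≤ x := (le_max_right _ _).trans hx
  have hx1 : (1 : ℝ) ≤ x := by exact_mod_cast (by omega : 1 ≤ x)
  have hx0 : (0 : ℝ) < x := by linarith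
  have hp1 : 1 ≤ p - 1 := by have := hp.two_le; omega
  have h1 := hdiv (p - 1) hp1
  have h2 : ((p - 1 : ℕ) : ℝ) ^ (η / 32) ≤ (x : ℝ) ^ (η / 32) := by
    apply Real.rpow_le_rpow (Nat.cast_nonneg _) _ (by positivity)
    exact_mod_cast (by omega : p - 1 ≤ x)
  have hxe1 : (1 : ℝ) ≤ (x : ℝ) ^ (η / 32) := Real.one_le_rpow hx1 (by positivity)
  have h3 := mul_le_mul_of_nonneg_left h2 hC0.le
  have h4 : 2 * (((p - 1).divisors.card : ℝ) + 1) ≤ (2 * C0 + 2) * (x : ℝ) ^ (η / 32) := by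
    rw [add_mul]
    nlinarith
  have h5 : (x : ℝ) ^ (η / 16) = ((x : ℝ) ^ (η / 32)) ^ 2 := by
    rw [← Real.rpow_natCast, ← Real.rpow_mul hx0.le]
    congr 1
    push_cast
    ring
  rw [h5, ← mul_pow]
  exact pow_le_pow_left₀ (by positivity) h4 2

end Pool.Agent.T6.H1.Ar
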