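import Pool.Agent.T6.H1.Ar.Core

/-! # Arbitrary sets of primes, arbitrary sets of bases: the theorems -/

set_option autoImplicit false

namespace Pool.Agent.T6.H1.Ar

open Finset Filter
open Pool.Agent.R459.Eq (mean Per co pi_lower' small_ev)
open Pool.Agent.T6.H1.Sm (Rep count_div fB fB_mem fB_per rep_fB co_rep second)
open Pool.Agent.T6.H1.Pm (Gc mu mu_mem mu_mean sum_inv sh fc_sh secondm)

open Classical in
/-- the number of the primes in `P` for which `n` is a primitive root -/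
noncomputable def cn (P : Finset ℕ) (n : ℤ) : ℕ := (P.filter (fun p : ℕ => orderOf (n : ZMod p) = p - 1)).card

lemma cn_eq (P : Finset ℕ) (B : ℤ) (r : ℕ) (m : ℤ) : (cn P (B * m ^ r) : ℝ) = ∑ p ∈ P, fB B r p m := by
  classical
  unfold cn fB
  rw [card_filter]
  push_cast
  apply sum_congr rfl
  intro p _
  congr

/-- the conditions -/
structure Cnd (η : ℝ) (x N : ℕ) (B : ℤ) (P : Finset ℕ) (U V : Finset ℤ) : Prop where
  hN : 1 ≤ N
  hP : ∀ p ∈ P, p.Prime ∧ p ≤ x ∧ ¬ (p : ℤ) ∣ B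
  hQ : (x : ℝ) ^ (1 / 2 + η) * Real.log (2 * N) ≤ P.card
  hU : ∀ u ∈ U, |u| ≤ N
  hV : ∀ v ∈ V, |v| ≤ N
  hUV : (x : ℝ) ^ (2 + η) ≤ U.card * V.card
  hLU : (x : ℝ) ^ (2 + η) * Real.log (2 * N) ^ 2 ≤ U.card * (P.card : ℝ) ^ 2
  hLV : (x : ℝ) ^ (2 + η) * Real.log (2 * N) ^ 2 ≤ V.card * (P.card : ℝ) ^ 2

lemma L_ge (N : ℕ) (hN : 1 ≤ N) : 1 / 2 ≤ Real.log (2 * N) := by
  have hN1 : (1 : ℝ) ≤ N := by exact_mod_cast hN
  have h1 : Real.log 2 ≤ Real.log (2 * N) := Real.log_le_log (by norm_num) (by linarith)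
  have := Real.log_two_gt_d9
  linarith

lemma lam (P : Finset ℕ) (hP : ∀ p ∈ P, p.Prime) (N : ℕ) (W : Finset ℤ) (hW : ∀ w ∈ W, |w| ≤ (N : ℤ)) :
    ∀ u ∈ W, ∀ u' ∈ W, u ≠ u' →
      ((P.filter (fun p : ℕ => (p : ℤ) ∣ u - u')).card : ℝ) ≤ 2 * Real.log (2 * N) := by
  intro u hu u' hu' hne
  apply count_div _ hP _ (sub_ne_zero.2 hne)
  have h1 := hW u hu
  have h2 := hW u' hu'
  have h3 : (u - u').natAbs ≤ 2 * N := by
    rw [abs_le] at h1 h2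
    omega
  exact_mod_cast h3

lemma Cnd.pos {η : ℝ} {x N : ℕ} {B : ℤ} {P : Finset ℕ} {U V : Finset ℤ} (h : Cnd η x N B P U V) (hx : 1 ≤ x) :
    0 < (U.card : ℝ) ∧ 0 < (V.card : ℝ) ∧ 0 < (P.card : ℝ) ∧ (x : ℝ) ^ (1 / 2 + η) / 2 ≤ P.card := by
  have hx0 : (0 : ℝ) < x := by exact_mod_cast hx
  have hL := L_ge N h.hN
  have hL0 : 0 < Real.log (2 * N) := by linarith
  have hQ0 : 0 < (P.card : ℝ) := lt_of_lt_of_le (by positivity) h.hQ
  refine ⟨?_, ?_, hQ0, ?_⟩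
  · have h1 : 0 < (U.card : ℝ) * (P.card : ℝ) ^ 2 := lt_of_lt_of_le (by positivity) h.hLU
    by_contra hcon
    push Not at hcon
    have : (U.card : ℝ) * (P.card : ℝ) ^ 2 ≤ 0 := mul_nonpos_of_nonpos_of_nonneg hcon (sq_nonneg _)
    linarith
  · have h1 : 0 < (V.card : ℝ) * (P.card : ℝ) ^ 2 := lt_of_lt_of_le (by positivity) h.hLV
    by_contra hcon
    push Not at hcon
    have : (V.card : ℝ) * (P.card : ℝ) ^ 2 ≤ 0 := mul_nonpos_of_nonpos_of_nonneg hcon (sq_nonneg _)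
    linarith
  · refine le_trans ?_ h.hQ
    have : (x : ℝ) ^ (1 / 2 + η) * (1 / 2) ≤ (x : ℝ) ^ (1 / 2 + η) * Real.log (2 * N) :=
      mul_le_mul_of_nonneg_left hL (by positivity)
    linarith

open Classical in
/-- **sums** -/
theorem sums (η : ℝ) (hη : 0 < η) : ∃ X : ℕ, 4 ≤ X ∧ ∀ (x N : ℕ) (B : ℤ) (r : ℕ) (P : Finset ℕ) (U V : Finset ℤ),
    X ≤ x → 1 ≤ r → Cnd η x N B P U V →
    (((U ×ˢ V).filter (fun z => (x : ℝ) ^ (-(η / 8)) * P.card <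
      |(cn P (B * (z.1 + z.2) ^ r) : ℝ) - ∑ p ∈ P, mean p (fB B r p)|)).card : ℝ) ≤
      (x : ℝ) ^ (-(η / 8)) * (U.card * V.card) := by
  obtain ⟨C1, X, hC1, hX4, hX⟩ := prep η hη
  refine ⟨X, hX4, fun x N B r P U V hx hr h => ?_⟩
  have hx1 : 1 ≤ x := by omega
  have hx1' : (1 : ℝ) ≤ x := by exact_mod_cast hx1
  have hx0 : (0 : ℝ) < x := by linarith
  obtain ⟨hbig, hdiv⟩ := hX x hx
  obtain ⟨ha, hb, hQ0, hQ⟩ := h.pos hx1
  have hL := L_ge N h.hN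
  have hL0 : 0 < Real.log (2 * N) := by linarith
  obtain ⟨T, hT⟩ : ∃ T : ℝ, T = Real.sqrt (C1 * (x : ℝ) ^ (η / 16)) := ⟨_, rfl⟩
  have hT0 : 0 ≤ T := by rw [hT]; positivity
  have hT2 : T ^ 2 = C1 * (x : ℝ) ^ (η / 16) := by rw [hT]; exact Real.sq_sqrt (by positivity)
  have hco : ∀ p ∈ P, ∀ a ∈ Ico 1 p, ‖co p (fB B r p) a‖ ≤ T / Real.sqrt p := by
    intro p hp a ha
    obtain ⟨hp1, hp2, hp3⟩ := h.hP p hp
    have : Fact p.Prime := ⟨hp1⟩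
    refine (co_rep (fB B r p) (fB_mem B r p) _ (rep_fB B hp3 r hr) a ha).trans ?_
    apply div_le_div_of_nonneg_right _ (Real.sqrt_nonneg _)
    rw [hT]
    apply Real.le_sqrt_of_sq_le
    refine le_trans ?_ (hdiv p hp1 hp2)
    have h0 : (0 : ℝ) ≤ ((p - 1).divisors.card : ℝ) := Nat.cast_nonneg _
    nlinarith
  have hsec := second U V x P (fun p hp => ⟨(h.hP p hp).1.one_le, (h.hP p hp).2.1⟩) (fun p n => fB B r p n)
    (fun p n => fB_mem B r p n) (fun p _ => fB_per B r p) T hT0 hco (2 * Real.log (2 * N)) (by positivity)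
    (lam P (fun p hp => (h.hP p hp).1) N U h.hU) (lam P (fun p hp => (h.hP p hp).1) N V h.hV)
  have hel := elem2 η x (Real.log (2 * N)) U.card V.card P.card hη hx1' hL0 ha hb hQ0 h.hUV h.hLU h.hLV h.hQ
  have hsec' : ∑ z ∈ U ×ˢ V, (∑ p ∈ P, (fB B r p (z.1 + z.2) - mean p (fB B r p))) ^ 2 ≤
      (P.card : ℝ) * (U.card * V.card) + T ^ 2 * x *
        Real.sqrt (((U.card : ℝ) * (P.card : ℝ) ^ 2 + (U.card : ℝ) ^ 2 * (2 * Real.log (2 * N)) ^ 2) *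
          ((V.card : ℝ) * (P.card : ℝ) ^ 2 + (V.card : ℝ) ^ 2 * (2 * Real.log (2 * N)) ^ 2)) := by
    refine le_trans (le_of_eq ?_) hsec
    exact sum_product' U V (fun u v => (∑ p ∈ P, (fB B r p (u + v) - mean p (fB B r p))) ^ 2)
  have hfin := cheb (U ×ˢ V) (fun z => ∑ p ∈ P, (fB B r p (z.1 + z.2) - mean p (fB B r p))) η x U.card V.card P.card T C1
    hη hx1' hQ hT2.le ha hb hC1 _ hel hsec' hbig
  refine le_trans ?_ hfin
  have hsub : (U ×ˢ V).filter (fun z => (x : ℝ) ^ (-(η / 8)) * P.card <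
      |(cn P (B * (z.1 + z.2) ^ r) : ℝ) - ∑ p ∈ P, mean p (fB B r p)|) ⊆
      (U ×ˢ V).filter (fun z => (x : ℝ) ^ (-(η / 8)) * P.card / 2 <
        |∑ p ∈ P, (fB B r p (z.1 + z.2) - mean p (fB B r p))|) := by
    intro z hz
    rw [mem_filter] at hz ⊢
    refine ⟨hz.1, ?_⟩
    have h1 := hz.2
    rw [cn_eq, ← sum_sub_distrib] at h1
    have h2 : 0 < (x : ℝ) ^ (-(η / 8)) * P.card := by positivity
    linarith
  exact_mod_cast card_le_card hsub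

open Classical in
/-- the sum over all primes and the centred sum -/
lemma compare (P : Finset ℕ) (x : ℕ) (hP : ∀ p ∈ P, p.Prime ∧ p ≤ x) (f : ℕ → ℤ → ℝ) (hf : ∀ p n, 0 ≤ f p n ∧ f p n ≤ 1)
    (hper : ∀ p ∈ P, Per p (f p)) (c m : ℤ) (A : ℝ)
    (h1 : ((P.filter (fun p : ℕ => (p : ℤ) ∣ c)).card : ℝ) ≤ A)
    (h2 : ((P.filter (fun p : ℕ => (p : ℤ) ∣ m)).card : ℝ) ≤ 2 * A) :
    |∑ p ∈ P, f p (m + c) - ∑ p ∈ P, mean p (f p)| ≤
      |∑ p ∈ P.filter (fun p : ℕ => ¬ (p : ℤ) ∣ c), Gc p c (f p) m| + 2 * (1 + Real.log x) + 3 * A := by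
  have hmean : ∀ p ∈ P, 0 ≤ mean p (f p) ∧ mean p (f p) ≤ 1 := by
    intro p hp
    have hp0 : (0 : ℝ) < p := by exact_mod_cast (hP p hp).1.pos
    unfold mean
    constructor
    · exact div_nonneg (sum_nonneg fun t _ => (hf _ _).1) hp0.le
    · rw [div_le_one hp0]
      refine (sum_le_card_nsmul _ _ 1 fun t _ => (hf _ _).2).trans ?_
      rw [card_range, nsmul_eq_mul, mul_one]
  rw [← sum_sub_distrib, ← sum_filter_add_sum_filter_not P (fun p : ℕ => ¬ (p : ℤ) ∣ c)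
    (fun p => f p (m + c) - mean p (f p))]
  have h3 : |∑ p ∈ P.filter (fun p : ℕ => ¬ ¬ (p : ℤ) ∣ c), (f p (m + c) - mean p (f p))| ≤ A := by
    refine (abs_sum_le_sum_abs _ _).trans ?_
    refine le_trans ?_ h1
    have e : P.filter (fun p : ℕ => ¬ ¬ (p : ℤ) ∣ c) = P.filter (fun p : ℕ => (p : ℤ) ∣ c) := by
      ext p
      simp
    rw [e]
    refine (sum_le_card_nsmul _ _ 1 fun p hp => ?_).trans ?_
    · have h4 := hmean p (mem_filter.1 hp).1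
      have h5 := hf p (m + c)
      rw [abs_le]
      constructor <;> linarith [h4.1, h4.2, h5.1, h5.2]
    · rw [nsmul_eq_mul, mul_one]
  have h4 : |∑ p ∈ P.filter (fun p : ℕ => ¬ (p : ℤ) ∣ c), (f p (m + c) - mean p (f p)) -
      ∑ p ∈ P.filter (fun p : ℕ => ¬ (p : ℤ) ∣ c), Gc p c (f p) m| ≤ 2 * (1 + Real.log x) + 2 * A := by
    rw [← sum_sub_distrib]
    refine (abs_sum_le_sum_abs _ _).trans ?_
    have h5 : ∀ p ∈ P.filter (fun p : ℕ => ¬ (p : ℤ) ∣ c), |f p (m + c) - mean p (f p) - Gc p c (f p) m| ≤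
        2 / p + if (p : ℤ) ∣ m then 1 else 0 := by
      intro p hp
      rw [mem_filter] at hp
      have h6 := mu_mean (hP p hp.1).1 (f p) (hf p) (hper p hp.1) c
      have h7 := mu_mem p (hP p hp.1).1.two_le c (f p) (hf p)
      have h8 := hmean p hp.1
      have h9 := hf p (m + c)
      unfold Gc
      by_cases hm : (p : ℤ) ∣ m
      · rw [if_pos hm, if_pos hm, sub_zero]
        have h10 : (0 : ℝ) ≤ 2 / p := by positivity
        rw [abs_le]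
        constructor <;> linarith [h8.1, h8.2, h9.1, h9.2]
      · rw [if_neg hm, if_neg hm, add_zero]
        have e : f p (m + c) - mean p (f p) - (f p (m + c) - mu p c (f p)) = mu p c (f p) - mean p (f p) := by ring
        rw [e]
        exact h6
    refine (sum_le_sum h5).trans ?_
    rw [sum_add_distrib]
    have h6 := sum_inv (P.filter (fun p : ℕ => ¬ (p : ℤ) ∣ c)) x (fun p hp => hP p (mem_filter.1 hp).1)
    have h7 : ∑ p ∈ P.filter (fun p : ℕ => ¬ (p : ℤ) ∣ c), (if (p : ℤ) ∣ m then (1 : ℝ) else 0) ≤ 2 * A := by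
      refine le_trans ?_ h2
      rw [← sum_filter, sum_const, nsmul_eq_mul, mul_one]
      have h8 : (P.filter (fun p : ℕ => ¬ (p : ℤ) ∣ c)).filter (fun p : ℕ => (p : ℤ) ∣ m) ⊆
          P.filter (fun p : ℕ => (p : ℤ) ∣ m) := by
        intro p hp
        rw [mem_filter, mem_filter] at hp
        rw [mem_filter]
        exact ⟨hp.1.1, hp.2⟩
      exact_mod_cast card_le_card h8
    linarith
  obtain ⟨a, ha⟩ : ∃ a, a = ∑ p ∈ P.filter (fun p : ℕ => ¬ (p : ℤ) ∣ c), (f p (m + c) - mean p (f p)) := ⟨_, rfl⟩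
  obtain ⟨b, hb⟩ : ∃ b, b = ∑ p ∈ P.filter (fun p : ℕ => ¬ ¬ (p : ℤ) ∣ c), (f p (m + c) - mean p (f p)) := ⟨_, rfl⟩
  obtain ⟨g, hg⟩ : ∃ g, g = ∑ p ∈ P.filter (fun p : ℕ => ¬ (p : ℤ) ∣ c), Gc p c (f p) m := ⟨_, rfl⟩
  rw [← ha, ← hg] at h4
  rw [← hb] at h3
  rw [← ha, ← hb, ← hg]
  rw [abs_le] at h3 h4 ⊢
  have h5 := neg_abs_le g
  have h6 := le_abs_self g
  constructor <;> linarith [h3.1, h3.2, h4.1, h4.2]

open Classical in
/-- **shifted products** -/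
theorem prods (η : ℝ) (hη : 0 < η) : ∃ X : ℕ, 4 ≤ X ∧ ∀ (x N : ℕ) (B : ℤ) (r : ℕ) (P : Finset ℕ) (U V : Finset ℤ) (c : ℤ),
    X ≤ x → 1 ≤ r → Cnd η x N B P U V → c ≠ 0 → |c| ≤ N → 0 ∉ U → 0 ∉ V →
    (((U ×ˢ V).filter (fun z => (x : ℝ) ^ (-(η / 8)) * P.card <
      |(cn P (B * (z.1 * z.2 + c) ^ r) : ℝ) - ∑ p ∈ P, mean p (fB B r p)|)).card : ℝ) ≤
      (x : ℝ) ^ (-(η / 8)) * (U.card * V.card) := by
  obtain ⟨C1, X, hC1, hX4, hX⟩ := prep η hη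
  obtain ⟨X', hX4', hX'⟩ := Lsum η hη
  refine ⟨max X X', hX4.trans (le_max_left _ _), fun x N B r P U V c hxx hr h hc hcN hU0 hV0 => ?_⟩
  have hx : X ≤ x := (le_max_left _ _).trans hxx
  have hx' : X' ≤ x := (le_max_right _ _).trans hxx
  have hx1 : 1 ≤ x := by omega
  have hx1' : (1 : ℝ) ≤ x := by exact_mod_cast hx1
  have hx0 : (0 : ℝ) < x := by linarith
  obtain ⟨hbig, hdiv⟩ := hX x hx
  obtain ⟨ha, hb, hQ0, hQ⟩ := h.pos hx1
  have hL := L_ge N h.hN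
  have hL0 : 0 < Real.log (2 * N) := by linarith
  obtain ⟨T, hT⟩ : ∃ T : ℝ, T = Real.sqrt (C1 * (x : ℝ) ^ (η / 16)) := ⟨_, rfl⟩
  have hT0 : 0 ≤ T := by rw [hT]; positivity
  have hT2 : T ^ 2 = C1 * (x : ℝ) ^ (η / 16) := by rw [hT]; exact Real.sq_sqrt (by positivity)
  obtain ⟨P', hP'⟩ : ∃ P', P' = P.filter (fun p : ℕ => ¬ (p : ℤ) ∣ c) := ⟨_, rfl⟩
  have hP'P : P' ⊆ P := by rw [hP']; exact filter_subset _ _
  have hPP : ∀ p ∈ P', p.Prime ∧ p ≤ x := fun p hp => ⟨(h.hP p (hP'P hp)).1, (h.hP p (hP'P hp)).2.1⟩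
  have hco : ∀ (p : ℕ) (hp : p ∈ P'), ∀ ψ : DirichletCharacter ℂ p, ψ ≠ 1 →
      ‖@Pool.Agent.H730R2.AA.Exp.fc p ⟨(hPP p hp).1⟩ (@sh p ⟨(hPP p hp).1⟩ c (fB B r p)) ψ‖ ≤ T / Real.sqrt p := by
    intro p hp ψ hψ
    obtain ⟨hp1, hp2, hp3⟩ := h.hP p (hP'P hp)
    have hpc : ¬ (p : ℤ) ∣ c := by
      rw [hP', mem_filter] at hp
      exact hp.2
    have : Fact p.Prime := ⟨hp1⟩
    refine (fc_sh (fB B r p) (fB_mem B r p) (fB_per B r p) _ (rep_fB B hp3 r hr) c hpc ψ hψ).trans ?_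
    apply div_le_div_of_nonneg_right _ (Real.sqrt_nonneg _)
    rw [hT]
    exact Real.le_sqrt_of_sq_le (hdiv p hp1 hp2)
  have hsec := secondm U V c x P' hPP (fun p n => fB B r p n)
    (fun p n => fB_mem B r p n) (fun p _ => fB_per B r p) T hT0 hco (2 * Real.log (2 * N)) (by positivity)
    (lam P' (fun p hp => (hPP p hp).1) N U h.hU) (lam P' (fun p hp => (hPP p hp).1) N V h.hV)
  have hcard : (P'.card : ℝ) ≤ P.card := by exact_mod_cast card_le_card hP'P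
  have hel := elem2 η x (Real.log (2 * N)) U.card V.card P.card hη hx1' hL0 ha hb hQ0 h.hUV h.hLU h.hLV h.hQ
  have hsec' : ∑ z ∈ U ×ˢ V, (∑ p ∈ P', Gc p c (fB B r p) (z.1 * z.2)) ^ 2 ≤
      (P.card : ℝ) * (U.card * V.card) + T ^ 2 * x *
        Real.sqrt (((U.card : ℝ) * (P.card : ℝ) ^ 2 + (U.card : ℝ) ^ 2 * (2 * Real.log (2 * N)) ^ 2) *
          ((V.card : ℝ) * (P.card : ℝ) ^ 2 + (V.card : ℝ) ^ 2 * (2 * Real.log (2 * N)) ^ 2)) := by
    have e : ∑ z ∈ U ×ˢ V, (∑ p ∈ P', Gc p c (fB B r p) (z.1 * z.2)) ^ 2 =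
        ∑ u ∈ U, ∑ v ∈ V, (∑ p ∈ P', Gc p c (fB B r p) (u * v)) ^ 2 :=
      sum_product' U V (fun u v => (∑ p ∈ P', Gc p c (fB B r p) (u * v)) ^ 2)
    rw [e]
    refine hsec.trans ?_
    gcongr
  have hfin := cheb (U ×ˢ V) (fun z => ∑ p ∈ P', Gc p c (fB B r p) (z.1 * z.2)) η x U.card V.card P.card T C1
    hη hx1' hQ hT2.le ha hb hC1 _ hel hsec' hbig
  refine le_trans ?_ hfin
  have hcdiv : ((P.filter (fun p : ℕ => (p : ℤ) ∣ c)).card : ℝ) ≤ 2 * Real.log (2 * N) := by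
    apply count_div _ (fun p hp => (h.hP p hp).1) _ hc
    have h3 : c.natAbs ≤ 2 * N := by
      rw [abs_le] at hcN
      omega
    exact_mod_cast h3
  have hsub : (U ×ˢ V).filter (fun z => (x : ℝ) ^ (-(η / 8)) * P.card <
      |(cn P (B * (z.1 * z.2 + c) ^ r) : ℝ) - ∑ p ∈ P, mean p (fB B r p)|) ⊆
      (U ×ˢ V).filter (fun z => (x : ℝ) ^ (-(η / 8)) * P.card / 2 <
        |∑ p ∈ P', Gc p c (fB B r p) (z.1 * z.2)|) := by
    intro z hz
    rw [mem_filter] at hz ⊢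
    refine ⟨hz.1, ?_⟩
    have hzz := mem_product.1 hz.1
    have hz1 : z.1 ≠ 0 := fun h0 => hU0 (h0 ▸ hzz.1)
    have hz2 : z.2 ≠ 0 := fun h0 => hV0 (h0 ▸ hzz.2)
    have hmdiv : ((P.filter (fun p : ℕ => (p : ℤ) ∣ z.1 * z.2)).card : ℝ) ≤ 2 * (2 * Real.log (2 * N)) := by
      have h6 := count_div P (fun p hp => (h.hP p hp).1) (z.1 * z.2)
        (mul_ne_zero hz1 hz2) ((2 * N : ℝ) ^ 2) ?_
      · rw [Real.log_pow] at h6
        push_cast at h6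
        linarith
      · have h7 : z.1.natAbs ≤ N := by have := h.hU z.1 hzz.1; rw [abs_le] at this; omega
        have h8 : z.2.natAbs ≤ N := by have := h.hV z.2 hzz.2; rw [abs_le] at this; omega
        rw [Int.natAbs_mul]
        have h9 : z.1.natAbs * z.2.natAbs ≤ (2 * N) ^ 2 := by
          calc z.1.natAbs * z.2.natAbs ≤ N * N := Nat.mul_le_mul h7 h8
            _ ≤ (2 * N) ^ 2 := by nlinarith
        exact_mod_cast h9
    have h6 := compare P x (fun p hp => ⟨(h.hP p hp).1, (h.hP p hp).2.1⟩) (fun p n => fB B r p n)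
      (fun p n => fB_mem B r p n) (fun p _ => fB_per B r p) c (z.1 * z.2) (2 * Real.log (2 * N)) hcdiv hmdiv
    have h7 := hX' x (Real.log (2 * N)) P.card hx' hL h.hQ
    have h8 := hz.2
    rw [cn_eq] at h8
    rw [hP']
    linarith
  exact_mod_cast card_le_card hsub

end Pool.Agent.T6.H1.Ar
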